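import Mathlib
import Pool.Agent.H499R2.CO.R5

set_option autoImplicit false

/-! Runs of consecutive integers with equal finite height under the `3x+1` map. -/

namespace Pool.Agent.Results.MP_e99302_nt.RunsOfEqualHeight

open Filter Topology

/-- The Collatz map. -/
def C (n : ℕ) : ℕ := if n % 2 = 0 then n / 2 else 3 * n + 1

/-- The height of `n` is `k`: the least `k ≥ 0` with `C^k(n) = 1`. -/
def HasHeight (n k : ℕ) : Prop := C^[k] n = 1 ∧ ∀ j < k, C^[j] n ≠ 1

/-- `n, n + 1, ..., n + L - 1` is a run of length `L` of equal (finite) height. -/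
def Run (L n : ℕ) : Prop := ∃ k : ℕ, ∀ i < L, HasHeight (n + i) k

/-- `n` reaches `1`. -/
def Reaches (n : ℕ) : Prop := ∃ k, C^[k] n = 1

/-- The positive integers with the property `P` have natural density `l`. -/
def HasDensity (P : ℕ → Prop) (l : ℝ) : Prop :=
  Tendsto (fun N : ℕ => ({n : ℕ | 1 ≤ n ∧ n ≤ N ∧ P n}.ncard : ℝ) / N) atTop (𝓝 l)

theorem reaches_C (n : ℕ) : Reaches n ↔ Reaches (C n) := by
  constructor
  · rintro ⟨k, hk⟩
    rcases k with _ | k
    · have h1 : n = 1 := hk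
      subst h1
      exact ⟨2, by decide⟩
    · exact ⟨k, by rwa [Function.iterate_succ_apply] at hk⟩
  · rintro ⟨k, hk⟩
    exact ⟨k + 1, by rwa [Function.iterate_succ_apply]⟩

theorem reaches_T (n : ℕ) : Reaches n ↔ Reaches (Pool.Agent.H499R2.ND.Tn n) := by
  unfold Pool.Agent.H499R2.ND.Tn
  rcases Nat.mod_two_eq_zero_or_one n with h | h
  · rw [if_pos h, reaches_C n]
    have : C n = n / 2 := by simp [C, h]
    rw [this]
  · rw [if_neg (by omega), reaches_C n, reaches_C (C n)]
    have h1 : C n = 3 * n + 1 := by simp [C, h]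
    have h2 : C (3 * n + 1) = (3 * n + 1) / 2 := by
      unfold C; rw [if_pos (by omega)]
    rw [h1, h2]

theorem le_two_mul_C (n : ℕ) : n ≤ 2 * C n := by
  unfold C; split_ifs <;> omega

/-- reaching `1` from `n` takes at least `log₂ n` steps -/
theorem le_pow_iterate (j n : ℕ) : n ≤ 2 ^ j * C^[j] n := by
  induction j generalizing n with
  | zero => simp
  | succ j ih =>
    rw [Function.iterate_succ_apply]
    calc n ≤ 2 * C n := le_two_mul_C n
      _ ≤ 2 * (2 ^ j * C^[j] (C n)) := Nat.mul_le_mul_left _ (ih (C n))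
      _ = 2 ^ (j + 1) * C^[j] (C n) := by ring

theorem hasHeight_of_reaches {n : ℕ} (h : Reaches n) : ∃ k, HasHeight n k := by
  classical
  exact ⟨Nat.find h, Nat.find_spec h, fun j hj => Nat.find_min h hj⟩

/-- integers which coalesce before the time `log₂` have the same height -/
theorem height_eq {n m t k : ℕ} (hn : 2 ^ t ≤ n) (hm : 2 ^ t ≤ m) (h : C^[t] m = C^[t] n)
    (hk : HasHeight n k) : HasHeight m k := by
  have lt_of : ∀ {a : ℕ}, 2 ^ t ≤ a → ∀ j < t, C^[j] a ≠ 1 := by
    intro a ha j hj h1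
    have h2 := le_pow_iterate j a
    rw [h1, mul_one] at h2
    have h3 : 2 ^ j < 2 ^ t := Nat.pow_lt_pow_right (by norm_num) hj
    omega
  have htk : t ≤ k := by
    by_contra hcon
    exact lt_of hn k (by omega) hk.1
  have hshift : ∀ j, t ≤ j → C^[j] m = C^[j] n := by
    intro j hj
    obtain ⟨i, rfl⟩ := Nat.exists_eq_add_of_le hj
    rw [add_comm t i, Function.iterate_add_apply, Function.iterate_add_apply, h]
  refine ⟨by rw [hshift k htk]; exact hk.1, fun j hj => ?_⟩
  by_cases hjt : j < t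
  · exact lt_of hm j hjt
  · rw [hshift j (by omega)]
    exact hk.2 j hj

/-- **Runs of equal height.**  For every `L ≥ 1` there are `L` consecutive positive integers with the
same finite height.  More precisely, there is a number `δ`, with `0 < δ ≤ 1` and `δ = 1` exactly when
every positive integer reaches `1`, such that for every `L ≥ 1` the set of the `n` for which
`n, n + 1, ..., n + L - 1` is a run of equal height has natural density `δ`; the same holds with a
length `L(n)` depending on `n` if `1 ≤ L(n)` and `L(n) = o(√(log n) / log log n)`. -/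
theorem result : (∀ L : ℕ, 1 ≤ L → ∃ n, 1 ≤ n ∧ Run L n) ∧
    ∃ δ : ℝ, 0 < δ ∧ δ ≤ 1 ∧ (δ = 1 ↔ ∀ n, 1 ≤ n → Reaches n) ∧
      (∀ L : ℕ, 1 ≤ L → HasDensity (fun n => Run L n) δ) ∧
      ∀ L : ℕ → ℕ, (∀ n, 1 ≤ L n) →
        Tendsto (fun n : ℕ => (L n : ℝ) * Real.log (Real.log n) / √ (Real.log n)) atTop (𝓝 0) →
        HasDensity (fun n => Run (L n) n) δ := by
  have hinv : ∀ n, 1 ≤ n → (Reaches n ↔ Reaches (Pool.Agent.H499R2.ND.Tn n)) := fun n _ => reaches_T n
  obtain ⟨δ, _, hl1, h1, h2, h3⟩ := Pool.Agent.H499R2.ND.nat_density (P := Reaches) hinv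
  have hpos : 0 < δ := h2.2 ⟨1, le_rfl, 0, rfl⟩
  have main : ∀ L : ℕ → ℕ, (∀ n, 1 ≤ L n) →
        Tendsto (fun n : ℕ => (L n : ℝ) * Real.log (Real.log n) / √ (Real.log n)) atTop (𝓝 0) →
        HasDensity (fun n => Run (L n) n) δ := by
    intro L hL hlim
    have hE : Pool.Agent.H499R2.CO.HD
        (fun n => ∃ t, 2 ^ t ≤ n ∧ ∀ h ≤ L n, C^[t] (n + h) = C^[t] n) 1 := by
      classical
      exact Pool.Agent.H499R2.CO.HD_iff.2 (Pool.Agent.H499R2.CO.run_C hlim)
    refine Pool.Agent.H499R2.CO.HD_congr hE h1 (fun n hn => ?_)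
    rintro ⟨t, ht, hcoal⟩
    constructor
    · intro hr
      obtain ⟨k, hk⟩ := hasHeight_of_reaches hr
      exact ⟨k, fun i hi => height_eq ht (by omega) (hcoal i hi.le) hk⟩
    · rintro ⟨k, hk⟩
      have := hk 0 (hL n)
      exact ⟨k, this.1⟩
  have hconst : ∀ L : ℕ, 1 ≤ L → HasDensity (fun n => Run L n) δ := by
    intro L hL
    refine main (fun _ => L) (fun _ => hL) ?_
    have g1 : Tendsto (fun x : ℝ => Real.log x / √ x) atTop (𝓝 0) := by
      have := (isLittleO_log_rpow_atTop (r := 1 / 2) (by norm_num)).tendsto_div_nhds_zero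
      refine this.congr' ?_
      filter_upwards with x
      rw [Real.sqrt_eq_rpow]
    have g2 : Tendsto (fun n : ℕ => Real.log (n : ℝ)) atTop atTop :=
      Real.tendsto_log_atTop.comp tendsto_natCast_atTop_atTop
    have g3 := (g1.comp g2).const_mul (L : ℝ)
    rw [mul_zero] at g3
    refine g3.congr fun n => ?_
    simp only [Function.comp]
    ring
  refine ⟨?_, δ, hpos, hl1, h3, hconst, main⟩
  intro L hL
  by_contra hcon
  push Not at hcon
  have hd := hconst L hL
  have h0 : Tendsto (fun N : ℕ => ({n : ℕ | 1 ≤ n ∧ n ≤ N ∧ Run L n}.ncard : ℝ) / N) atTop (𝓝 0) := by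
    refine tendsto_const_nhds.congr fun N => ?_
    have e : {n : ℕ | 1 ≤ n ∧ n ≤ N ∧ Run L n} = ∅ := by
      rw [Set.eq_empty_iff_forall_notMem]
      rintro n ⟨hn1, _, hn3⟩
      exact hcon n hn1 hn3
    rw [e]
    simp
  exact hpos.ne (tendsto_nhds_unique h0 hd)

end Pool.Agent.Results.MP_e99302_nt.RunsOfEqualHeight
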